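import Pool.Agent.H.MP_ae9099_mp.C
import Pool.Agent.H.MP_ae9099_mp.D

set_option autoImplicit false

namespace Pool.Agent.Results.MP_ae9099_mp.Cont

open Finset Filter Topology ComplexConjugate Pool.Agent.H.MP_ae9099_mp

/-- the radial boundary values of `G` exist at every real energy and depend continuously on it -/
def ContBdry (G : ℂ → ℂ) : Prop :=
  ∃ f : ℝ → ℂ, Continuous f ∧
    ∀ E : ℝ, Tendsto (fun η : ℝ => G (E + η * Complex.I)) (𝓝[>] 0) (𝓝 (f E))

theorem result (A : Type) [Fintype A] [DecidableEq A] (M : Matrix A A ℕ)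
    (_M0 : ¬ (Fintype.card A = 1 ∧ ∀ j k, M j k = 1)) (M1 : ∀ j, 1 ≤ M j j)
    (M2 : ∃ n : ℕ, ∀ j k, 0 < (M ^ n) j k)
    (V : Type) [DecidableEq V] (τ : RTree V) (a : V → A)
    (hc : ∀ x l, ((τ.ch x).filter (fun u => a u = l)).card = M (a x) l)
    (ν : V → ℝ) (hν : ∀ x, 0 < ν x) (hνa : ∀ x y, a x = a y → ν x = ν y)
    (t : V → V → ℂ) (w : V → ℝ) (ht : ∀ x y, t x y ≠ 0 ↔ τ.Adj x y)
    (hsym : ∀ x y, t x y * ν x = conj (t y x) * ν y)
    (m : A → A → ℝ) (m₁ : A → ℝ)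
    (hm : ∀ x, ∀ y ∈ τ.ch x, ‖t x y‖ ^ 2 * M (a x) (a y) = m (a x) (a y)) (hw : ∀ x, w x = m₁ (a x))
    (x : V) :
    (∀ z : ℂ, 0 < z.im → (∃! φ, τ.Sol ν t w (τ.desc x) z x 1 φ) ∧ ∃! φ, τ.Sol ν t w Set.univ z x 1 φ) ∧
    ContBdry (τ.green ν t w (τ.desc x) x) ∧ ContBdry (τ.green ν t w Set.univ x) := by
  obtain ⟨n, hn⟩ := M2
  have hirr := fun j k => irr_of_prim M n j k (hn j k)
  have hchild : ∀ y l, 0 < M (a y) l → ∃ u ∈ τ.ch y, a u = l := fun y l h => by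
    rw [← hc] at h
    obtain ⟨u, hu⟩ := Finset.card_pos.1 h
    exact ⟨u, Finset.mem_filter.1 hu⟩
  have hsurj : ∀ j, ∃ y, a y = j := fun j => by
    induction hirr (a τ.root) j with
    | refl => exact ⟨_, rfl⟩
    | tail _ h ih =>
      obtain ⟨y, rfl⟩ := ih
      obtain ⟨u, -, hu⟩ := hchild y _ h
      exact ⟨u, hu⟩
  choose ρ hρ using hsurj
  haveI : Nonempty A := ⟨a τ.root⟩
  set κ : A → A → ℝ := fun j k => |m j k| / M j k * (ν (ρ j) / ν (ρ k)) with hκd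
  have hκ : ∀ j k, 0 ≤ κ j k := fun j k =>
    mul_nonneg (div_nonneg (abs_nonneg _) (Nat.cast_nonneg _)) (div_pos (hν _) (hν _)).le
  have hκt : ∀ y, ∀ u ∈ τ.ch y, κ (a y) (a u) = ‖t y u‖ ^ 2 * (ν y / ν u) := fun y u hu => by
    have h1 : 0 < M (a y) (a u) := by
      rw [← hc]; exact Finset.card_pos.2 ⟨u, Finset.mem_filter.2 ⟨hu, rfl⟩⟩
    have h2 : (0 : ℝ) < M (a y) (a u) := Nat.cast_pos.2 h1
    simp only [hκd]
    rw [← hm y u hu, abs_of_nonneg (mul_nonneg (sq_nonneg _) h2.le), hνa _ y (hρ _), hνa _ u (hρ _),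
      mul_div_assoc, div_self h2.ne', mul_one]
  have htt : ∀ y, ∀ u ∈ τ.ch y, t y u * t u y = κ (a y) (a u) := fun y u hu => by
    rw [hκt y u hu]
    have h1 := hsym u y
    have h2 : (ν u : ℂ) ≠ 0 := Complex.ofReal_ne_zero.2 (hν u).ne'
    rw [Complex.ofReal_mul, ← Complex.normSq_eq_norm_sq, Complex.normSq_eq_conj_mul_self]
    push_cast
    field_simp
    linear_combination t y u * h1
  have G : Good τ ν t := by
    refine ⟨hν, hsym, ⟨∑ j, ∑ k, κ j k, fun y u hu => ?_⟩, ⟨∑ j, ∑ k, M j k, fun y => ?_⟩⟩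
    · have h1 : κ (a y) (a u) ≤ ∑ j, ∑ k, κ j k :=
        (Finset.single_le_sum (f := κ (a y)) (fun k _ => hκ _ k) (mem_univ _)).trans
          (Finset.single_le_sum (f := fun j => ∑ k, κ j k) (fun j _ => Finset.sum_nonneg fun k _ => hκ j k)
            (mem_univ _))
      have h2 : ‖t y u‖ ^ 2 * ν y = κ (a y) (a u) * ν u := by
        rw [hκt y u hu]; field_simp [(hν u).ne']
      rw [h2]
      exact mul_le_mul_of_nonneg_right h1 (hν u).le
    · rw [Finset.card_eq_sum_card_fiberwise (f := a) (t := univ) fun _ _ => mem_univ _]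
      simp only [hc]
      exact Finset.single_le_sum (f := fun j => ∑ k, M j k) (fun j _ => Nat.zero_le _) (mem_univ _)
  have hcp : ∀ j k, 0 < M j k → 0 < (M j k : ℝ) * κ j k := fun j k h => by
    obtain ⟨u, hu, hk⟩ := hchild (ρ j) k (by rw [hρ]; exact h)
    have h1 := hκt _ u hu
    rw [hρ, hk] at h1
    rw [h1]
    exact mul_pos (Nat.cast_pos.2 h) (mul_pos (pow_pos (norm_pos_iff.2 ((ht _ _).2 (Or.inr hu))) 2)
      (div_pos (hν _) (hν _)))
  have hirr' : ∀ j k, Relation.ReflTransGen (fun j k => 0 < (M j k : ℝ) * κ j k) j k := fun j k => by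
    induction hirr j k with
    | refl => exact Relation.ReflTransGen.refl
    | tail _ h ih => exact ih.tail (hcp _ _ h)
  have hrec : ∀ z : ℂ, 0 < z.im → ∀ y, τ.green ν t w (τ.desc y) y z *
      (z - m₁ (a y) + ∑ u ∈ τ.ch y, (κ (a y) (a u) : ℂ) * τ.green ν t w (τ.desc u) u z) = -1 := fun z hz y => by
    rw [← recur (w := w) G hz (fun y => eps_sol G hz (τ.desc y) y) y, hw]
    unfold RTree.green
    congr 2
    exact Finset.sum_congr rfl fun u hu => by rw [htt y u hu]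
  have him : ∀ z : ℂ, 0 < z.im → ∀ y, z.im * ‖τ.green ν t w (τ.desc y) y z‖ ^ 2 ≤
      (τ.green ν t w (τ.desc y) y z).im := fun z hz y => sol_im G hz (eps_sol G hz _ _)
  obtain ⟨F, hF, hFg⟩ := ext_cont (c := fun j k => M j k * κ j k) (b := m₁)
    (fun j k => mul_nonneg (Nat.cast_nonneg _) (hκ j k)) (fun j => hcp j j (M1 j))
    hirr'
    (fun z j => τ.green ν t w (τ.desc (ρ j)) (ρ j) z)
    (fun z hz => adm_of τ.ch a M hc κ hκ m₁ z hz _ (hrec z hz) (him z hz) ρ hρ)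
  have hFc : ∀ j, ContinuousOn (fun z => F z j) {z | 0 ≤ z.im} := fun j =>
    (continuous_apply j).comp_continuousOn hF
  have hFy : ∀ y z, 0 < z.im → F z (a y) = τ.green ν t w (τ.desc y) y z := fun y z hz => by
    rw [hFg z hz]
    exact label_inv τ.ch a M hc κ hκ m₁ z hz _ (hrec z hz) (him z hz) _ _ (hρ _)
  have hroot : ∃ H : ℂ → ℂ, ContinuousOn H {z | 0 ≤ z.im} ∧
      ∀ z, 0 < z.im → H z = τ.green ν t w Set.univ τ.root z :=
    ⟨_, hFc (a τ.root), fun z hz => by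
      rw [hFy _ z hz]
      exact (root_val G hz (eps_sol G hz _ _) (eps_sol G hz _ _)).symm⟩
  have hall : ∀ k : ℕ, ∀ y, τ.par^[k] y = τ.root → ∃ H : ℂ → ℂ, ContinuousOn H {z | 0 ≤ z.im} ∧
      ∀ z, 0 < z.im → H z = τ.green ν t w Set.univ y z := by
    intro k
    induction k with
    | zero => rintro y rfl; exact hroot
    | succ k ih =>
      intro y hy
      by_cases hr : y = τ.root
      · rw [hr]; exact hroot
      · obtain ⟨H, h1, h2⟩ := ih (τ.par y) hy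
        refine ⟨fun z => F z (a y) + t (τ.par y) y * t y (τ.par y) * F z (a y) ^ 2 * H z,
          (hFc _).add ((continuousOn_const.mul ((hFc _).pow 2)).mul h1), fun z hz => ?_⟩
        simp only
        rw [hFy y z hz, h2 z hz]
        exact (full_rec G hz hr (eps_sol G hz _ _) (eps_sol G hz _ _) (eps_sol G hz _ _)).symm
  obtain ⟨k, hk⟩ := τ.reach x
  obtain ⟨H, h1, h2⟩ := hall k x hk
  exact ⟨fun z hz => ⟨sol_exu G hz _ _, sol_exu G hz _ _⟩, bdry (hFc (a x)) (hFy x), bdry h1 h2⟩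

end Pool.Agent.Results.MP_ae9099_mp.Cont
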